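import Pool.Agent.Helper63.GB2.Defs

/-!
# MP_02f2ca_gt, module B11 : algebra of the derivation on `ℂ`
-/

open Set MeasureTheory Filter Topology

namespace GB

theorem cder_add (d : Derivation ℚ ℝ ℝ) (z w : ℂ) : cder d (z + w) = cder d z + cder d w := by
  apply Complex.ext <;> simp [cder]

theorem cder_sub (d : Derivation ℚ ℝ ℝ) (z w : ℂ) : cder d (z - w) = cder d z - cder d w := by
  apply Complex.ext <;> simp [cder]

theorem cder_mul (d : Derivation ℚ ℝ ℝ) (z w : ℂ) :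
    cder d (z * w) = cder d z * w + z * cder d w := by
  apply Complex.ext
  · simp only [cder, Complex.mul_re, Complex.add_re, map_sub, Derivation.leibniz, smul_eq_mul]
    ring
  · simp only [cder, Complex.mul_im, Complex.add_im, map_add, Derivation.leibniz, smul_eq_mul]
    ring

theorem CDer.d_natCast (d : Derivation ℚ ℝ ℝ) (n : ℕ) : d (n : ℝ) = 0 := by
  have := d.map_natCast n
  exact this

theorem CDer.d_intCast (d : Derivation ℚ ℝ ℝ) (n : ℤ) : d (n : ℝ) = 0 := by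
  rcases Int.eq_nat_or_neg n with ⟨k, rfl | rfl⟩
  · rw [Int.cast_natCast, CDer.d_natCast]
  · rw [Int.cast_neg, Int.cast_natCast, map_neg, CDer.d_natCast, neg_zero]

theorem CDer.cder_natCast (d : Derivation ℚ ℝ ℝ) (n : ℕ) : cder d (n : ℂ) = 0 := by
  apply Complex.ext
  · simp [cder]
  · simp [cder]

theorem cder_unit (d : Derivation ℚ ℝ ℝ) (q : ℂ) (hq : ‖q‖ = 1) :
    cder d q = Complex.I * (kap d q : ℂ) * q := by
  have hsq : q.re * q.re + q.im * q.im = 1 := by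
    have h := Complex.normSq_eq_norm_sq q
    rw [hq, Complex.normSq_apply] at h
    linarith
  have hq0 : q ≠ 0 := by
    intro h0
    rw [h0, norm_zero] at hq
    exact zero_ne_one hq
  have hd : q.re * d q.re + q.im * d q.im = 0 := by
    have h1 : d (q.re * q.re + q.im * q.im) = 0 := by rw [hsq]; exact d.map_one_eq_zero
    simp only [map_add, Derivation.leibniz, smul_eq_mul] at h1
    linarith
  have him : (-Complex.I * cder d q / q).im = 0 := by
    rw [Complex.div_im]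
    simp only [cder, Complex.mul_im, Complex.mul_re, Complex.neg_re, Complex.neg_im, Complex.I_re,
      Complex.I_im, Complex.normSq_apply, hsq]
    linarith
  have hval : (kap d q : ℂ) = -Complex.I * cder d q / q := by
    apply Complex.ext
    · rw [Complex.ofReal_re, kap]
    · rw [Complex.ofReal_im, him]
  rw [hval]
  field_simp
  linear_combination (cder d q) * Complex.I_sq

theorem CDer.cder_div_nat (d : Derivation ℚ ℝ ℝ) (z : ℂ) {L : ℕ} (hL : 1 ≤ L) :
    cder d (z / (L : ℂ)) = cder d z / (L : ℂ) := by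
  have hL0 : (L : ℂ) ≠ 0 := by
    have : L ≠ 0 := by omega
    exact_mod_cast this
  have h1 : z = (z / (L : ℂ)) * (L : ℂ) := by field_simp
  have h2 := cder_mul d (z / (L : ℂ)) (L : ℂ)
  rw [← h1, CDer.cder_natCast, mul_zero, add_zero] at h2
  rw [h2]
  field_simp

theorem CDer.cder_gi (d : Derivation ℚ ℝ ℝ) (s : ℤ × ℤ) : cder d (gi s) = 0 := by
  apply Complex.ext
  · exact CDer.d_intCast d s.1
  · exact CDer.d_intCast d s.2

theorem CDer.cder_fr2 (d : Derivation ℚ ℝ ℝ) (α : ℝ) (v : ℤ × ℤ) :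
    cder d (fr2 α v) = (d α : ℂ) * gi v := by
  apply Complex.ext
  · simp only [cder, fr2, gi, map_sub, Derivation.leibniz, smul_eq_mul, CDer.d_intCast, mul_zero,
      add_zero, sub_zero, Complex.re_ofReal_mul]
    ring
  · simp only [cder, fr2, gi, map_sub, Derivation.leibniz, smul_eq_mul, CDer.d_intCast, mul_zero,
      add_zero, sub_zero, Complex.im_ofReal_mul]
    ring

theorem CDer.cder_mb_gen (d : Derivation ℚ ℝ ℝ) (α : ℝ) (L : ℕ) (hL : 1 ≤ L) (q h : ℂ)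
    (hq : ‖q‖ = 1) (s v : ℤ × ℤ) :
    cder d (mb α L q h s v) = Complex.I * (kap d q : ℂ) * mb α L q h s v
      + q * (cder d h + (d α : ℂ) * gi v / (L : ℂ)) := by
  unfold mb
  rw [cder_mul, cder_add, CDer.cder_div_nat d _ hL, cder_add, CDer.cder_gi, CDer.cder_fr2, zero_add,
    cder_unit d q hq]
  ring

theorem cder_mb (d : Derivation ℚ ℝ ℝ) (α : ℝ) (hd : d α = 1) (L : ℕ) (hL : 1 ≤ L) (q h : ℂ)
    (hq : ‖q‖ = 1) (s v : ℤ × ℤ) :
    cder d (mb α L q h s v) = md α L q h (cder d h) (kap d q) s v := by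
  rw [CDer.cder_mb_gen d α L hL q h hq, hd, md, Complex.ofReal_one, one_mul]

theorem cder_mb_zero (d : Derivation ℚ ℝ ℝ) (α : ℝ) (hd : d α = 0) (L : ℕ) (hL : 1 ≤ L) (q h : ℂ)
    (hq : ‖q‖ = 1) (s v : ℤ × ℤ) :
    cder d (mb α L q h s v) = Complex.I * (kap d q : ℂ) * mb α L q h s v + q * cder d h := by
  rw [CDer.cder_mb_gen d α L hL q h hq, hd, Complex.ofReal_zero, zero_mul, zero_div, add_zero]

theorem cder_move (d : Derivation ℚ ℝ ℝ) (ρ a b : ℂ) (hρ : ‖ρ‖ = 1) :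
    cder d (ρ * b + a) =
      ρ * cder d b + Complex.I * (kap d ρ : ℂ) * (ρ * b) + cder d a := by
  rw [cder_add, cder_mul, cder_unit d ρ hρ]
  ring

theorem norm_lq {ι : Type} [Fintype ι] {M : ℕ} (ρ : ι → ℂ) (hρ : ∀ i, ‖ρ i‖ = 1)
    (J : ι → Fin M) : ‖lq ρ J‖ = 1 := by
  simp [lq, hρ]

theorem CDer.kap_one (d : Derivation ℚ ℝ ℝ) : kap d 1 = 0 := by
  have : cder d 1 = 0 := by simpa using CDer.cder_natCast d 1
  rw [kap, this]
  simp

theorem CDer.kap_mul (d : Derivation ℚ ℝ ℝ) (p q : ℂ) (hp : p ≠ 0) (hq : q ≠ 0) :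
    kap d (p * q) = kap d p + kap d q := by
  unfold kap
  rw [cder_mul, ← Complex.add_re]
  congr 1
  field_simp
  ring

theorem CDer.kap_pow (d : Derivation ℚ ℝ ℝ) (q : ℂ) (hq : q ≠ 0) (n : ℕ) :
    kap d (q ^ n) = n * kap d q := by
  induction n with
  | zero => simp [CDer.kap_one]
  | succ n ih =>
    rw [pow_succ, CDer.kap_mul d _ _ (pow_ne_zero n hq) hq, ih]
    push_cast
    ring

theorem CDer.kap_prod (d : Derivation ℚ ℝ ℝ) {ι : Type} (S : Finset ι) (f : ι → ℂ)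
    (hf : ∀ i, f i ≠ 0) : kap d (∏ i ∈ S, f i) = ∑ i ∈ S, kap d (f i) := by
  classical
  induction S using Finset.induction_on with
  | empty => simp [CDer.kap_one]
  | insert a S ha ih =>
    rw [Finset.prod_insert ha, Finset.sum_insert ha, CDer.kap_mul d _ _ (hf a), ih]
    exact Finset.prod_ne_zero_iff.2 fun i _ => hf i

theorem kap_lq {ι : Type} [Fintype ι] {M : ℕ} (d : Derivation ℚ ℝ ℝ) (ρ : ι → ℂ)
    (hρ : ∀ i, ‖ρ i‖ = 1) (J : ι → Fin M) (k₀ : ℝ) (hk : ∀ i, |kap d (ρ i)| ≤ k₀) :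
    |kap d (lq ρ J)| ≤ Fintype.card ι * M * k₀ := by
  have hne : ∀ i, ρ i ≠ 0 := fun i h0 => by
    have := hρ i
    rw [h0, norm_zero] at this
    exact zero_ne_one this
  rw [lq, CDer.kap_prod d _ _ (fun i => pow_ne_zero _ (hne i))]
  refine (Finset.abs_sum_le_sum_abs _ _).trans ?_
  have h1 : ∀ i ∈ (Finset.univ : Finset ι), |kap d (ρ i ^ ((J i : ℕ)))| ≤ M * k₀ := by
    intro i _
    rw [CDer.kap_pow d _ (hne i), abs_mul, Nat.abs_cast]
    apply mul_le_mul _ (hk i) (abs_nonneg _) (Nat.cast_nonneg _)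
    exact_mod_cast (J i).2.le
  refine (Finset.sum_le_card_nsmul _ _ _ h1).trans (le_of_eq ?_)
  rw [Finset.card_univ, nsmul_eq_mul]
  ring

theorem CDer.cder_inv_unit (d : Derivation ℚ ℝ ℝ) (q : ℂ) (hq : ‖q‖ = 1) :
    ‖cder d q⁻¹‖ = |kap d q| := by
  have hq0 : q ≠ 0 := by
    intro h0
    rw [h0, norm_zero] at hq
    exact zero_ne_one hq
  have h1 : ‖q⁻¹‖ = 1 := by rw [norm_inv, hq, inv_one]
  have h2 : kap d q⁻¹ = - kap d q := by
    have h3 := CDer.kap_mul d q q⁻¹ hq0 (inv_ne_zero hq0)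
    rw [mul_inv_cancel₀ hq0, CDer.kap_one] at h3
    linarith
  rw [cder_unit d _ h1, norm_mul, norm_mul, h1, Complex.norm_I, one_mul, mul_one,
    Complex.norm_real, Real.norm_eq_abs, h2, abs_neg]

theorem CDer.cder_sum (d : Derivation ℚ ℝ ℝ) {κ : Type} (S : Finset κ) (f : κ → ℂ) :
    cder d (∑ k ∈ S, f k) = ∑ k ∈ S, cder d (f k) := by
  classical
  induction S using Finset.induction_on with
  | empty => simpa using CDer.cder_natCast d 0
  | insert a S ha ih => rw [Finset.sum_insert ha, Finset.sum_insert ha, cder_add, ih]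

theorem cder_lh {ι : Type} [Fintype ι] [DecidableEq ι] {M : ℕ} (d : Derivation ℚ ℝ ℝ)
    (ρ a : ι → ℂ) (hρ : ∀ i, ‖ρ i‖ = 1) (c : (ι × (ι → Fin M)) → Fin M) (k₀ A₀ : ℝ)
    (hk : ∀ i, |kap d (ρ i)| ≤ k₀) (ha : ∀ i, ‖a i‖ ≤ A₀) (ha' : ∀ i, ‖cder d (a i)‖ ≤ A₀) :
    ‖cder d (lh ρ a c)‖ ≤
      Fintype.card ι * (M : ℝ) ^ Fintype.card ι * M * (A₀ + Fintype.card ι * M * k₀ * A₀) := by
  rw [lh, CDer.cder_sum]
  refine (norm_sum_le _ _).trans ?_
  have h1 : ∀ k ∈ (Finset.univ : Finset (ι × (ι → Fin M))),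
      ‖cder d (((c k : ℕ) : ℂ) * ((lq ρ k.2)⁻¹ * a k.1))‖ ≤
        M * (A₀ + Fintype.card ι * M * k₀ * A₀) := by
    intro k _
    have hk0 : 0 ≤ k₀ := (abs_nonneg _).trans (hk k.1)
    have hA0 : 0 ≤ A₀ := (norm_nonneg _).trans (ha k.1)
    rw [cder_mul, CDer.cder_natCast, zero_mul, zero_add, norm_mul, cder_mul]
    have h2 : ‖((c k : ℕ) : ℂ)‖ ≤ M := by
      rw [Complex.norm_natCast]
      exact_mod_cast (c k).2.le
    have h3 : ‖cder d (lq ρ k.2)⁻¹ * a k.1 + (lq ρ k.2)⁻¹ * cder d (a k.1)‖ ≤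
        A₀ + Fintype.card ι * M * k₀ * A₀ := by
      refine (norm_add_le _ _).trans ?_
      rw [norm_mul, norm_mul, CDer.cder_inv_unit d _ (norm_lq ρ hρ k.2), norm_inv, norm_lq ρ hρ,
        inv_one, one_mul, add_comm]
      exact add_le_add (ha' k.1) (mul_le_mul (kap_lq d ρ hρ k.2 k₀ hk) (ha k.1) (norm_nonneg _)
        (by positivity))
    exact mul_le_mul h2 h3 (norm_nonneg _) (by positivity)
  refine (Finset.sum_le_card_nsmul _ _ _ h1).trans (le_of_eq ?_)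
  rw [Finset.card_univ, Fintype.card_prod, Fintype.card_fun, Fintype.card_fin, nsmul_eq_mul]
  push_cast
  ring

end GB
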